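import Pool.Agent.H87.IS.Stmts
import Pool.Agent.H75.Plc.SARD

/-! Row `STR` of the board `isq` of helper87 (MP_432c1b_ag). -/

set_option autoImplicit false

namespace Pool.Agent.H87.IS

open MvPolynomial Pool.Agent.H39.MonoR Pool.Agent.H75.Mono Pool.Agent.H87.QF

namespace STRAux

variable {k : Type} [Field k] {σ : Type}

/-- evaluation of a translate -/
lemma eval_tr (x0 y : σ → k) (p : MvPolynomial σ k) :
    eval y (aeval (fun i => (C (x0 i) + X i : MvPolynomial σ k)) p) = eval (x0 + y) p := by
  have h : (eval y).comp (aeval (fun i => (C (x0 i) + X i : MvPolynomial σ k))).toRingHom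
      = eval (x0 + y) := by
    apply MvPolynomial.ringHom_ext
    · intro r
      simp
    · intro i
      simp
  exact RingHom.congr_fun h p

/-- derivative of a translate -/
lemma pderiv_tr (x0 : σ → k) (i : σ) (p : MvPolynomial σ k) :
    pderiv i (aeval (fun i => (C (x0 i) + X i : MvPolynomial σ k)) p)
      = aeval (fun i => (C (x0 i) + X i : MvPolynomial σ k)) (pderiv i p) := by
  classical
  induction p using MvPolynomial.induction_on with
  | C a => simp
  | add p q hp hq => simp only [map_add, hp, hq]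
  | mul_X p j hp =>
    rw [map_mul, Derivation.leibniz, Derivation.leibniz, hp, aeval_X, map_add, pderiv_C, zero_add,
      pderiv_X]
    simp only [smul_eq_mul, map_add, map_mul, aeval_X]
    congr 2
    by_cases hij : j = i
    · subst hij
      simp
    · simp [hij]

/-- a monomial of large degree is divisible by a large power of a variable -/
lemma exists_le [Fintype σ] {e : ℕ} (m : σ →₀ ℕ) (hm : m.degree = Fintype.card σ * e + 1) :
    ∃ i, e ≤ m i := by
  by_contra h
  push Not at h
  rw [Finsupp.degree_eq_sum] at hm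
  have : ∑ i, m i ≤ ∑ _i : σ, e := Finset.sum_le_sum fun i _ => (h i).le
  rw [Finset.sum_const, Finset.card_univ, smul_eq_mul] at this
  omega

/-- multiples by a polynomial without constant term -/
lemma ord_mul {r : MvPolynomial σ k} (hr : coeff 0 r = 0) (m : σ →₀ ℕ) (a : k) :
    Ord (m.degree + 1) (r * monomial m a) := by
  intro m' hm'
  rw [coeff_mul_monomial']
  split_ifs with h
  · obtain ⟨d, rfl⟩ := exists_add_of_le h
    rw [map_add] at hm'
    have hd : d.degree = 0 := by omega
    have hd' : d = 0 := (Finsupp.degree_eq_zero_iff d).1 hd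
    rw [hd', add_zero, tsub_self, hr, zero_mul]
  · rfl

/-- the algebra: a unit multiple of powers of the variables lies in the ideal -/
lemma star_of_mem [Fintype σ] (G : MvPolynomial σ k) (u : MvPolynomial σ k) (e : ℕ)
    (hu : coeff 0 u ≠ 0)
    (h : ∀ i, u * X i ^ e ∈ Ideal.span (Set.range fun i => pderiv i G)) :
    Star (Fintype.card σ * e + 1) G := by
  classical
  intro m hm
  obtain ⟨i, hi⟩ := exists_le m hm
  set γ : k := coeff 0 u with hγ
  have hm' : monomial m (1 : k) = X i ^ e * monomial (m - Finsupp.single i e) 1 := by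
    rw [X_pow_eq_monomial, monomial_mul, one_mul]
    congr 1
    rw [add_tsub_cancel_of_le]
    rw [Finsupp.single_le_iff]
    exact hi
  have hmem : C γ⁻¹ * monomial (m - Finsupp.single i e) 1 * (u * X i ^ e)
      ∈ Ideal.span (Set.range fun i => pderiv i G) := Ideal.mul_mem_left _ _ (h i)
  obtain ⟨c, hc⟩ := Ideal.mem_span_range_iff_exists_fun.1 hmem
  refine ⟨c, ?_⟩
  rw [hc]
  have e1 : monomial m (1 : k) - C γ⁻¹ * monomial (m - Finsupp.single i e) 1 * (u * X i ^ e)
      = (C γ⁻¹ * (C γ - u)) * monomial m 1 := by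
    have e2 : C γ⁻¹ * monomial (m - Finsupp.single i e) 1 * (u * X i ^ e)
        = C γ⁻¹ * u * monomial m 1 := by rw [hm']; ring
    rw [e2, mul_sub, ← C_mul, inv_mul_cancel₀ hu, C_1]
    ring
  rw [e1, ← hm]
  apply ord_mul
  rw [coeff_C_mul, coeff_sub, coeff_C, if_pos rfl, hγ, sub_self, mul_zero]

end STRAux

open STRAux in
theorem STR : STRStmt := by
  classical
  intro k _ _ _ σ _ _ f x0 hfin hx0
  set G : MvPolynomial σ k := aeval (fun i => (C (x0 i) + X i : MvPolynomial σ k)) f with hG
  have hcrit : ∀ y : σ → k, y ∈ Crit G ↔ x0 + y ∈ Crit f := by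
    intro y
    simp only [Crit, Set.mem_ofPred_eq, hG, pderiv_tr, eval_tr]
  have hGfin : (Crit G).Finite := by
    have : Crit G = (fun y => x0 + y) ⁻¹' Crit f := by
      ext y
      exact hcrit y
    rw [this]
    exact hfin.preimage (add_right_injective x0).injOn
  have h0 : (0 : σ → k) ∈ Crit G := by
    rw [hcrit, add_zero]
    exact hx0
  have hG0 : eval 0 G = 0 := h0.1
  obtain ⟨T, hT⟩ := sard (R := k) G
  set h : MvPolynomial σ k := ∏ a ∈ T.erase 0, (G - C a) with hh
  have hh0 : eval 0 h ≠ 0 := by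
    rw [hh, eval_prod, Finset.prod_ne_zero_iff]
    intro a ha
    rw [map_sub, hG0, eval_C, zero_sub, neg_ne_zero]
    exact (Finset.mem_erase.1 ha).1
  have hℓ : ∀ y ∈ hGfin.toFinset.erase 0, ∃ ℓ : MvPolynomial σ k, eval y ℓ = 0 ∧ eval 0 ℓ ≠ 0 := by
    intro y hy
    have hy0 : y ≠ 0 := (Finset.mem_erase.1 hy).1
    obtain ⟨j, hj⟩ := Function.ne_iff.1 hy0
    refine ⟨X j - C (y j), by simp, ?_⟩
    rw [map_sub, eval_X, eval_C, Pi.zero_apply, zero_sub, neg_ne_zero]
    exact hj
  choose! ℓ hℓ1 hℓ2 using hℓ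
  set q : MvPolynomial σ k := ∏ y ∈ hGfin.toFinset.erase 0, ℓ y with hq
  have hq0 : eval 0 q ≠ 0 := by
    rw [hq, eval_prod, Finset.prod_ne_zero_iff]
    exact hℓ2
  have hrad : ∀ i, q * h * X i ∈ (Ideal.span (Set.range fun i => pderiv i G)).radical := by
    intro i
    rw [← vanishingIdeal_zeroLocus_eq_radical (K := k), mem_vanishingIdeal_iff]
    intro y hy
    rw [mem_zeroLocus_iff] at hy
    have hy1 : ∀ i, aeval y (pderiv i G) = 0 := fun i => hy _ (Ideal.subset_span ⟨i, rfl⟩)
    obtain ⟨a, haT, ha⟩ := hT y hy1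
    have hae : ∀ p : MvPolynomial σ k, aeval y p = eval y p := fun p =>
      RingHom.congr_fun (coe_aeval_eq_eval y) p
    have ha' : eval y G = a := by
      rw [← hae, ha]
      rfl
    rw [hae]
    by_cases ha0 : a = 0
    · have hyc : y ∈ Crit G := ⟨by rw [ha', ha0], fun i => by
        rw [← hae]
        exact hy1 i⟩
      by_cases hy0 : y = 0
      · rw [hy0]
        simp
      · have hym : y ∈ hGfin.toFinset.erase 0 := by
          rw [Finset.mem_erase, Set.Finite.mem_toFinset]
          exact ⟨hy0, hyc⟩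
        have : eval y q = 0 := by
          rw [hq, eval_prod]
          exact Finset.prod_eq_zero hym (hℓ1 y hym)
        rw [map_mul, map_mul, this]
        simp
    · have : eval y h = 0 := by
        rw [hh, eval_prod]
        apply Finset.prod_eq_zero (Finset.mem_erase.2 ⟨ha0, haT⟩)
        rw [map_sub, ha', eval_C, sub_self]
      rw [map_mul, map_mul, this]
      simp
  choose n hn using hrad
  set e : ℕ := ∑ i, n i with he
  refine ⟨Fintype.card σ * e + 1, by omega, ?_⟩
  apply star_of_mem G ((q * h) ^ e) e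
  · have : coeff 0 ((q * h) ^ e) = eval 0 ((q * h) ^ e) := by
      rw [eval_zero, constantCoeff_eq]
    rw [this, map_pow, map_mul]
    exact pow_ne_zero _ (mul_ne_zero hq0 hh0)
  · intro i
    rw [← mul_pow]
    exact Ideal.pow_mem_of_pow_mem _ (hn i)
      (Finset.single_le_sum (fun j _ => Nat.zero_le (n j)) (Finset.mem_univ i))

end Pool.Agent.H87.IS
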